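import Pool.Agent.Run7.h565.LJ.Mem

/-!
# Minimising late jobs with bounded processing times is NP-complete

Both problems `1 | r_j, p_j ≤ c | ∑ U_j` and `1 | r_j, p_j ≤ c | ∑ w_j U_j` are NP-complete for every
`c ≥ 13`. So there is a polynomial-time algorithm for every fixed `c` if and only if P = NP.

`LateJobs`, `WeightedLateJobs` are defined in Pool/Agent/H741R2/LJDefs.lean, the classes in
Pool/Agent/NPC/{Defs,Classes}.lean. The reduction from 3SAT (`hardI_late`, `hardI_wlate`) is in the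
starting files Pool/Agent/H741R2/LJ*.lean; membership in NP is in Pool/Agent/Run7/h565/LJ.
-/

set_option autoImplicit false

namespace Pool.Agent.Results.MP_1ce42f_lc.NPCompleteThirteen

open Pool.Agent.NPC Pool.Agent.H741R2.LJ

/-- Both problems, with processing times at most `c`, are in NP for every `c` and NP-complete for
every `c ≥ 13`. A polynomial-time algorithm for one value `c ≥ 13`, and also polynomial-time
algorithms for all values `c`, exist if and only if every problem in NP is in P; the same holds for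
the weighted problem. -/
theorem result :
    (∀ c : ℕ, InNPP (LateJobs c) ∧ InNPP (WeightedLateJobs c)) ∧
    (∀ c : ℕ, 13 ≤ c → NPHardP (LateJobs c) ∧ NPHardP (WeightedLateJobs c)) ∧
    (∀ c : ℕ, 13 ≤ c → (InPP (LateJobs c) ↔ ∀ L : Set (List Bool), InNP L → InP L)) ∧
    (∀ c : ℕ, 13 ≤ c → (InPP (WeightedLateJobs c) ↔ ∀ L : Set (List Bool), InNP L → InP L)) ∧
    ((∀ c : ℕ, InPP (LateJobs c)) ↔ ∀ L : Set (List Bool), InNP L → InP L) ∧
    ((∀ c : ℕ, InPP (WeightedLateJobs c)) ↔ ∀ L : Set (List Bool), InNP L → InP L) := by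
  have n1 := Run7.h565.LJ.late_inNP
  have n2 := Run7.h565.LJ.wlate_inNP
  have h1 : ∀ c : ℕ, 13 ≤ c → NPHardP (LateJobs c) := fun c hc => (hardI_late hc).toNPHardP
  have h2 : ∀ c : ℕ, 13 ≤ c → NPHardP (WeightedLateJobs c) := fun c hc =>
    (hardI_wlate hc).toNPHardP
  refine ⟨fun c => ⟨n1 c, n2 c⟩, fun c hc => ⟨h1 c hc, h2 c hc⟩, fun c hc => ⟨fun h => ?_, fun h => ?_⟩,
    fun c hc => ⟨fun h => ?_, fun h => ?_⟩, ⟨fun h => ?_, fun h c => ?_⟩, ⟨fun h => ?_, fun h c => ?_⟩⟩
  · exact NPHard.collapse (h1 c hc) h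
  · exact h _ (n1 c)
  · exact NPHard.collapse (h2 c hc) h
  · exact h _ (n2 c)
  · exact NPHard.collapse (h1 13 le_rfl) (h 13)
  · exact h _ (n1 c)
  · exact NPHard.collapse (h2 13 le_rfl) (h 13)
  · exact h _ (n2 c)

end Pool.Agent.Results.MP_1ce42f_lc.NPCompleteThirteen
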